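import Mathlib

/-!
# Symmetric automatic structures and inverted flats

Definitions (words over a finite subset of a group, padded pairs, symmetric automatic structures) and
the main statement `no_rational_flat`: a free abelian subgroup of rank two all of whose elements are
inverted by one group element is never rational for a symmetric automatic structure.
-/

namespace Pool.Agent.Lib.MP_c68597_al

/-- The element of `G` represented by a word over the finite alphabet `A` of elements of `G`. -/
def ev {G : Type*} [Group G] {A : Finset G} (w : List ↥A) : G := (w.map Subtype.val).prod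

/-- The word of pairs read by a synchronous automaton on two words: the shorter word is padded
at the end by `none`. -/
def pad {α : Type*} : List α → List α → List (Option α × Option α)
  | [], v => v.map fun b => (none, some b)
  | a :: u, [] => (some a, none) :: pad u []
  | a :: u, b :: v => (some a, some b) :: pad u v

/-- A symmetric automatic structure `(A, L)` on a group `G`: `A` is a finite inverse closed
generating set, `L` is a regular language of words over `A` which maps onto `G`, for every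
`x ∈ A ∪ {1}` the set of pairs `(u, v) ∈ L × L` with `u x = v` in `G` is recognised by a
synchronous automaton (reading the padded pair), and `L` is closed under formal inversion. -/
structure SymmetricAutomaticStructure (G : Type*) [Group G] where
  /-- the finite generating set -/
  A : Finset G
  /-- `A` is closed under inversion -/
  inv_mem : ∀ a ∈ A, a⁻¹ ∈ A
  /-- `A` generates the group -/
  generates : Subgroup.closure (A : Set G) = ⊤
  /-- the language -/
  L : Language ↥A
  /-- `L` is regular -/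
  isRegular : L.IsRegular
  /-- `L` maps onto the group -/
  onto : ∀ g : G, ∃ w ∈ L, ev w = g
  /-- the multiplier automata, `x ∈ A ∪ {1}` -/
  mult : ∀ x : G, x ∈ A ∨ x = 1 → Language.IsRegular
    ({p | ∃ u ∈ L, ∃ v ∈ L, ev u * x = ev v ∧ p = pad u v} : Language (Option ↥A × Option ↥A))
  /-- `L` is closed under formal inversion `a_1 ⋯ a_k ↦ a_k⁻¹ ⋯ a_1⁻¹` -/
  symm : ∀ w ∈ L, (w.map fun a : ↥A => (⟨(a : G)⁻¹, inv_mem a a.2⟩ : ↥A)).reverse ∈ L

section Core

variable {G : Type*} [Group G]

lemma fm_take_pad_fst {α : Type*} (u : List α) :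
    ∀ (v : List α) (t : ℕ), ((pad u v).take t).filterMap Prod.fst = u.take t := by
  induction u with
  | nil =>
    intro v t
    simp only [pad, List.take_nil, List.filterMap_eq_nil_iff]
    intro p hp
    obtain ⟨b, -, rfl⟩ := List.mem_map.1 (List.mem_of_mem_take hp)
    rfl
  | cons a u ih =>
    intro v t
    cases v with
    | nil =>
      cases t with
      | zero => simp
      | succ t => simp [pad, ih [] t]
    | cons b v =>
      cases t with
      | zero => simp
      | succ t => simp [pad, ih v t]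

lemma fm_take_pad_snd {α : Type*} (u : List α) :
    ∀ (v : List α) (t : ℕ), ((pad u v).take t).filterMap Prod.snd = v.take t := by
  induction u with
  | nil =>
    intro v t
    simp only [pad, ← List.map_take]
    induction v.take t with
    | nil => rfl
    | cons b w ih => simp [ih]
  | cons a u ih =>
    intro v t
    cases v with
    | nil =>
      cases t with
      | zero => simp
      | succ t => simpa [pad] using ih [] t
    | cons b v =>
      cases t with
      | zero => simp
      | succ t => simp [pad, ih v t]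

lemma fm_pad_fst {α : Type*} (u v : List α) : (pad u v).filterMap Prod.fst = u := by
  have h := fm_take_pad_fst u v ((pad u v).length + u.length)
  rwa [List.take_of_length_le (by omega), List.take_of_length_le (by omega)] at h

lemma fm_pad_snd {α : Type*} (u v : List α) : (pad u v).filterMap Prod.snd = v := by
  have h := fm_take_pad_snd u v ((pad u v).length + v.length)
  rwa [List.take_of_length_le (by omega), List.take_of_length_le (by omega)] at h

lemma ev_append {A : Finset G} (u v : List ↥A) : ev (u ++ v) = ev u * ev v := by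
  simp [ev]

lemma ev_nil {A : Finset G} : ev ([] : List ↥A) = 1 := by
  simp [ev]

/-- Fellow traveller property for a generator. -/
lemma ft_gen {A : Finset G} (L : Language ↥A) (x : G)
    (h : Language.IsRegular ({p | ∃ u ∈ L, ∃ v ∈ L, ev u * x = ev v ∧ p = pad u v} :
      Language (Option ↥A × Option ↥A))) :
    ∃ B : Set G, B.Finite ∧ ∀ u ∈ L, ∀ v ∈ L, ev u * x = ev v →
      ∀ t : ℕ, (ev (u.take t))⁻¹ * ev (v.take t) ∈ B := by
  classical
  obtain ⟨σ, _, M, hM⟩ := h
  have hz : ∀ q : σ, ∃ z : List (Option ↥A × Option ↥A),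
      (∃ z' : List (Option ↥A × Option ↥A), M.evalFrom q z' ∈ M.accept) →
        M.evalFrom q z ∈ M.accept := by
    intro q
    by_cases hq : ∃ z' : List (Option ↥A × Option ↥A), M.evalFrom q z' ∈ M.accept
    · obtain ⟨z', hz'⟩ := hq
      exact ⟨z', fun _ => hz'⟩
    · exact ⟨[], fun h => absurd h hq⟩
  choose z hz using hz
  refine ⟨Set.range fun q : σ => ev ((z q).filterMap Prod.fst) * x *
    (ev ((z q).filterMap Prod.snd))⁻¹, Set.finite_range _, ?_⟩
  intro u hu v hv huv t
  have hp : pad u v ∈ M.accepts := by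
    rw [hM]
    exact ⟨u, hu, v, hv, huv, rfl⟩
  set q : σ := M.eval ((pad u v).take t) with hq
  have hdrop : M.evalFrom q ((pad u v).drop t) ∈ M.accept := by
    rw [DFA.mem_accepts, ← List.take_append_drop t (pad u v), DFA.eval,
      DFA.evalFrom_of_append] at hp
    exact hp
  have hzq := hz q ⟨_, hdrop⟩
  have hp2 : (pad u v).take t ++ z q ∈ M.accepts := by
    rw [DFA.mem_accepts, DFA.eval, DFA.evalFrom_of_append]
    exact hzq
  rw [hM] at hp2
  obtain ⟨u', -, v', -, huv', hpad⟩ := hp2
  have h1 : u' = u.take t ++ (z q).filterMap Prod.fst := by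
    rw [← fm_pad_fst u' v', ← hpad, List.filterMap_append, fm_take_pad_fst]
  have h2 : v' = v.take t ++ (z q).filterMap Prod.snd := by
    rw [← fm_pad_snd u' v', ← hpad, List.filterMap_append, fm_take_pad_snd]
  refine ⟨q, ?_⟩
  rw [h1, h2, ev_append, ev_append] at huv'
  show ev ((z q).filterMap Prod.fst) * x * (ev ((z q).filterMap Prod.snd))⁻¹ = _
  have h3 : (ev (u.take t)) * (ev ((z q).filterMap Prod.fst) * x) *
      (ev ((z q).filterMap Prod.snd))⁻¹ = ev (v.take t) := by
    rw [← mul_assoc, huv', mul_inv_cancel_right]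
  rw [← h3]
  group

/-- Fellow traveller property for an arbitrary group element. -/
lemma ft_all (S : SymmetricAutomaticStructure G) (g : G) :
    ∃ B : Set G, B.Finite ∧ ∀ u ∈ S.L, ∀ v ∈ S.L, ev u * g = ev v →
      ∀ t : ℕ, (ev (u.take t))⁻¹ * ev (v.take t) ∈ B := by
  have hg : g ∈ Subgroup.closure (S.A : Set G) := by rw [S.generates]; trivial
  induction hg using Subgroup.closure_induction with
  | mem x hx => exact ft_gen S.L x (S.mult x (Or.inl (by simpa using hx)))
  | one => exact ft_gen S.L 1 (S.mult 1 (Or.inr rfl))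
  | mul x y _ _ hx hy =>
    obtain ⟨B, hB, h⟩ := hx
    obtain ⟨B', hB', h'⟩ := hy
    refine ⟨Set.image2 (fun b b' => b * b') B B', hB.image2 _ hB', ?_⟩
    intro u hu v hv huv t
    obtain ⟨w, hw, hwv⟩ := S.onto (ev u * x)
    refine ⟨_, h u hu w hw hwv.symm t, _, h' w hw v hv (by rw [hwv, mul_assoc, huv]) t, ?_⟩
    simp [mul_assoc]
  | inv x _ hx =>
    obtain ⟨B, hB, h⟩ := hx
    refine ⟨(fun b => b⁻¹) '' B, hB.image _, ?_⟩
    intro u hu v hv huv t
    refine ⟨_, h v hv u hu (by rw [← huv]; simp) t, ?_⟩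
    simp

lemma exists_short {α : Type*} (P : List α → Prop) (h : ∃ w, P w) :
    ∃ w, P w ∧ ∀ w', P w' → w.length ≤ w'.length := by
  obtain ⟨w0, h0⟩ := h
  obtain ⟨w, hw, hmin⟩ := WellFounded.has_min (measure (List.length (α := α))).wf {w | P w}
    ⟨w0, h0⟩
  refine ⟨w, hw, fun w' hw' => ?_⟩
  have h1 := hmin w' hw'
  exact not_lt.1 h1

/-- A shortest representative in `L` of `v g` is not much longer than `v`. -/
lemma short_bound {A : Finset G} (L : Language ↥A) (hL : L.IsRegular) (B : Set G)
    (hB : B.Finite) (g : G)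
    (hft : ∀ u ∈ L, ∀ v ∈ L, ev u * g = ev v → ∀ t : ℕ, (ev (u.take t))⁻¹ * ev (v.take t) ∈ B) :
    ∃ C : ℕ, ∀ v ∈ L, ∀ u ∈ L, ev v * g = ev u →
      (∀ u' ∈ L, ev u' = ev u → u.length ≤ u'.length) → u.length ≤ v.length + C := by
  classical
  obtain ⟨σ, _, M, hM⟩ := hL
  have : Fintype ↥B := hB.fintype
  refine ⟨Fintype.card (σ × ↥B), ?_⟩
  intro v hv u hu hvu hmin
  by_contra hlt
  push Not at hlt
  set C := Fintype.card (σ × ↥B) with hC
  have hmem : ∀ t : ℕ, (ev v)⁻¹ * ev (u.take (v.length + t)) ∈ B := by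
    intro t
    have h := hft v hv u hu hvu (v.length + t)
    rwa [List.take_of_length_le (by omega)] at h
  obtain ⟨t1, t2, hne, heq⟩ := Fintype.exists_ne_map_eq_of_card_lt
    (fun t : Fin (C + 1) => ((M.eval (u.take (v.length + t)), ⟨_, hmem t⟩) : σ × ↥B))
    (by simp [hC])
  wlog hlt12 : t1 < t2 generalizing t1 t2 with H
  · exact H t2 t1 hne.symm heq.symm (lt_of_le_of_ne (not_lt.1 hlt12) hne.symm)
  simp only [Prod.mk.injEq, Subtype.mk.injEq, mul_right_inj] at heq
  obtain ⟨hst, hval⟩ := heq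
  set s1 := v.length + (t1 : ℕ) with hs1
  set s2 := v.length + (t2 : ℕ) with hs2
  have h12 : (t1 : ℕ) < t2 := hlt12
  have ht2 : (t2 : ℕ) < C + 1 := t2.2
  have hs12 : s1 < s2 := by omega
  have hs2u : s2 ≤ u.length := by omega
  have hmemL : u.take s1 ++ u.drop s2 ∈ L := by
    rw [← hM, DFA.mem_accepts, DFA.eval, DFA.evalFrom_of_append]
    have h1 : M.evalFrom M.start (u.take s1) = M.evalFrom M.start (u.take s2) := hst
    rw [h1, ← DFA.evalFrom_of_append, List.take_append_drop]
    rw [← hM, DFA.mem_accepts] at hu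
    exact hu
  have hevL : ev (u.take s1 ++ u.drop s2) = ev u := by
    rw [ev_append, hval, ← ev_append, List.take_append_drop]
  have h3 := hmin _ hmemL hevL
  rw [List.length_append, List.length_take, List.length_drop] at h3
  omega

/-- Prefixes of powers. -/
lemma take_power {A : Finset G} (l : List ↥A) : ∀ (k j : ℕ), ∃ (i : ℕ) (r : List ↥A),
    r.length ≤ l.length ∧ ev (((List.replicate k l).flatten).take j) = ev l ^ i * ev r := by
  intro k
  induction k with
  | zero =>
    intro j
    exact ⟨0, [], by simp, by simp [ev]⟩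
  | succ k ih =>
    intro j
    rw [List.replicate_succ, List.flatten_cons, List.take_append]
    by_cases hj : j ≤ l.length
    · refine ⟨0, l.take j, by simp [List.length_take], ?_⟩
      have h0 : j - l.length = 0 := by omega
      rw [h0]
      simp
    · obtain ⟨i, r, hr, hev⟩ := ih (j - l.length)
      refine ⟨i + 1, r, hr, ?_⟩
      rw [ev_append, hev, List.take_of_length_le (by omega), pow_succ', mul_assoc]

lemma ev_flatten_replicate {A : Finset G} (l : List ↥A) (k : ℕ) :
    ev ((List.replicate k l).flatten) = ev l ^ k := by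
  induction k with
  | zero => simp [ev]
  | succ k ih => rw [List.replicate_succ, List.flatten_cons, ev_append, ih, pow_succ']

lemma take_mid {α : Type*} (p X q : List α) (j : ℕ) (h1 : p.length ≤ j)
    (h2 : j ≤ p.length + X.length) : (p ++ X ++ q).take j = p ++ X.take (j - p.length) := by
  rw [List.append_assoc, List.take_append, List.take_of_length_le h1, List.take_append]
  have h3 : j - p.length - X.length = 0 := by omega
  rw [h3]
  simp

/-- The formal inverse of a word. -/
def fInv (S : SymmetricAutomaticStructure G) (w : List ↥S.A) : List ↥S.A :=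
  (w.map fun a : ↥S.A => (⟨(a : G)⁻¹, S.inv_mem a a.2⟩ : ↥S.A)).reverse

lemma fInv_mem (S : SymmetricAutomaticStructure G) {w : List ↥S.A} (hw : w ∈ S.L) :
    fInv S w ∈ S.L := S.symm w hw

lemma length_fInv (S : SymmetricAutomaticStructure G) (w : List ↥S.A) :
    (fInv S w).length = w.length := by simp [fInv]

lemma ev_fInv (S : SymmetricAutomaticStructure G) (w : List ↥S.A) :
    ev (fInv S w) = (ev w)⁻¹ := by
  induction w with
  | nil => simp [fInv, ev]
  | cons a w ih =>
    have h1 : fInv S (a :: w) = fInv S w ++ [⟨(a : G)⁻¹, S.inv_mem a a.2⟩] := by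
      simp [fInv]
    rw [h1, ev_append, ih]
    simp [ev]

lemma ev_take_fInv (S : SymmetricAutomaticStructure G) (w : List ↥S.A) (t : ℕ) :
    ev ((fInv S w).take t) = (ev w)⁻¹ * ev (w.take (w.length - t)) := by
  have h1 : (fInv S w).take t = fInv S (w.drop (w.length - t)) := by
    unfold fInv
    rw [List.take_reverse, List.length_map, ← List.map_drop]
  have h2 : ev w = ev (w.take (w.length - t)) * ev (w.drop (w.length - t)) := by
    rw [← ev_append, List.take_append_drop]
  rw [h1, ev_fInv]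
  conv_rhs => rw [h2]
  group

/-- **Main group-theoretic statement.** An `L`-rational torsion-free subgroup all of whose
elements are inverted by one element `s` is a finite union of sets `u ⟨z⟩ u'`. -/
theorem rational_inverted (S : SymmetricAutomaticStructure G) (F : Subgroup G)
    (htf : ∀ f ∈ F, f ≠ 1 → ∀ n : ℕ, n ≠ 0 → f ^ n ≠ 1) (s : G)
    (hs : ∀ f ∈ F, s * f * s⁻¹ = f⁻¹)
    (hreg : Language.IsRegular ({w | w ∈ S.L ∧ ev w ∈ F} : Language ↥S.A)) :
    ∃ T : Set (G × G × G), T.Finite ∧
      ∀ f ∈ F, ∃ p ∈ T, ∃ n : ℤ, f = p.1 * p.2.1 ^ n * p.2.2 := by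
  classical
  obtain ⟨σ, _, M, hM⟩ := hreg
  set N := Fintype.card σ with hN
  obtain ⟨B, hB, hft⟩ := ft_all S s
  obtain ⟨B', hB', hft'⟩ := ft_all S s⁻¹
  obtain ⟨C, hC⟩ := short_bound S.L S.isRegular B hB s hft
  have hfinN : ∀ n : ℕ, {l : List ↥S.A | l.length ≤ n}.Finite := fun n =>
    List.finite_length_le _ n
  set T0 : Set (G × G × G) := (fun w : List ↥S.A => (ev w, (1 : G), (1 : G))) ''
    {l : List ↥S.A | l.length ≤ 2 * N + C} with hT0
  set T1 : Set (G × G × G) :=
    (fun q : (List ↥S.A × List ↥S.A × List ↥S.A) × (G × G) =>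
      (ev q.1.1 * ev q.1.2.1 * q.2.2 * q.2.1⁻¹ * (ev q.1.2.2)⁻¹, ev q.1.2.1, (ev q.1.1)⁻¹ * s)) ''
    (({l : List ↥S.A | l.length ≤ N} ×ˢ ({l : List ↥S.A | l.length ≤ N} ×ˢ
      {l : List ↥S.A | l.length ≤ N})) ×ˢ (B ×ˢ B')) with hT1
  refine ⟨T0 ∪ T1, Set.Finite.union ((hfinN _).image _)
    ((((hfinN N).prod ((hfinN N).prod (hfinN N))).prod (hB.prod hB')).image _), ?_⟩
  intro f hf
  -- a shortest word for `f`
  obtain ⟨w, ⟨hwL, hwf⟩, hmin⟩ := exists_short (fun w : List ↥S.A => w ∈ S.L ∧ ev w = f)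
    (S.onto f)
  by_cases hlen : w.length ≤ 2 * N + C
  · refine ⟨_, Or.inl ⟨w, hlen, rfl⟩, 0, ?_⟩
    simp [hwf]
  push Not at hlen
  have hwacc : w ∈ M.accepts := by
    rw [hM]
    exact ⟨hwL, by rw [hwf]; exact hf⟩
  obtain ⟨p, l, q, hwpq, hpl, hl, hpump⟩ := M.pumping_lemma hwacc (by omega)
  have hW : ∀ k : ℕ, (p ++ (List.replicate k l).flatten ++ q) ∈ S.L ∧
      ev (p ++ (List.replicate k l).flatten ++ q) ∈ F := by
    intro k
    have h1 : (p ++ (List.replicate k l).flatten ++ q) ∈ M.accepts := by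
      apply hpump
      refine Language.append_mem_mul (Language.append_mem_mul (by rfl) ?_) (by rfl)
      rw [Language.mem_kstar]
      refine ⟨List.replicate k l, rfl, fun y hy => ?_⟩
      rw [List.eq_of_mem_replicate hy]
      rfl
    rw [hM] at h1
    exact h1
  have hevW : ∀ k : ℕ, ev (p ++ (List.replicate k l).flatten ++ q) = ev p * ev l ^ k * ev q := by
    intro k
    rw [ev_append, ev_append, ev_flatten_replicate]
  have hPQ : ev p * ev q ∈ F := by
    have h := (hW 0).2
    rw [hevW] at h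
    simpa using h
  have hfPQ : f = ev p * ev l * ev q := by
    rw [← hwf, hwpq, ev_append, ev_append]
  have hlne : ev l ≠ 1 := by
    intro h1
    have h2 : ev (p ++ (List.replicate 0 l).flatten ++ q) = f := by
      rw [hevW, hfPQ, h1]
      simp
    have h3 := hmin _ ⟨(hW 0).1, h2⟩
    have h4 : 0 < l.length := List.length_pos_iff.2 hl
    rw [hwpq] at h3
    simp only [List.length_append, List.replicate_zero, List.flatten_nil, List.length_nil] at h3
    omega
  have hconj : ev p * ev l * (ev p)⁻¹ ∈ F := by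
    have h1 : ev p * ev l * (ev p)⁻¹ = f * (ev p * ev q)⁻¹ := by
      rw [hfPQ]
      group
    rw [h1]
    exact F.mul_mem hf (F.inv_mem hPQ)
  have hinf : ∀ n : ℕ, n ≠ 0 → ev l ^ n ≠ 1 := by
    intro n hn h1
    refine htf _ hconj ?_ n hn ?_
    · intro h2
      apply hlne
      have h3 : ev l = (ev p)⁻¹ * (ev p * ev l * (ev p)⁻¹) * ev p := by group
      rw [h3, h2]
      group
    · rw [conj_pow, h1]
      group
  have hinj : Function.Injective (fun k : ℕ => ev p * ev l ^ k * ev q) := by
    have key : ∀ i j : ℕ, i < j → ev p * ev l ^ i * ev q ≠ ev p * ev l ^ j * ev q := by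
      intro i j hij h
      have h1 : ev l ^ i = ev l ^ j := by
        have := mul_right_cancel h
        exact mul_left_cancel this
      have h2 : ev l ^ (j - i) = 1 := by
        have h3 : ev l ^ i * ev l ^ (j - i) = ev l ^ i * 1 := by
          rw [← pow_add, mul_one, h1]
          congr 1
          omega
        exact mul_left_cancel h3
      exact hinf _ (by omega) h2
    intro i j hij
    rcases lt_trichotomy i j with h | h | h
    · exact absurd hij (key i j h)
    · exact h
    · exact absurd hij.symm (key j i h)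
  -- shortest words for `s w_k`
  have hU : ∀ k : ℕ, ∃ u : List ↥S.A, (u ∈ S.L ∧ ev u = s * (ev p * ev l ^ k * ev q)) ∧
      ∀ u' : List ↥S.A, (u' ∈ S.L ∧ ev u' = s * (ev p * ev l ^ k * ev q)) →
        u.length ≤ u'.length := fun k =>
    exists_short (fun u : List ↥S.A => u ∈ S.L ∧ ev u = s * (ev p * ev l ^ k * ev q)) (S.onto _)
  choose U hUL hUmin using hU
  have hUinj : Function.Injective U := by
    intro i j hij
    apply hinj
    have h1 := (hUL i).2
    rw [hij, (hUL j).2] at h1
    exact (mul_left_cancel h1).symm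
  obtain ⟨k, hk⟩ : ∃ k : ℕ, 2 * q.length ≤ (U k).length := by
    by_contra hcon
    push Not at hcon
    have hfin : (Set.range U).Finite := by
      refine (hfinN (2 * q.length)).subset ?_
      rintro _ ⟨k, rfl⟩
      exact (hcon k).le
    exact Set.infinite_range_of_injective hUinj hfin
  -- notation
  set u := U k with hu
  set W : List ↥S.A := p ++ (List.replicate k l).flatten ++ q with hWdef
  have hWL : W ∈ S.L := (hW k).1
  have hWF : ev W ∈ F := (hW k).2
  have hevu : ev u = s * ev W := by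
    rw [(hUL k).2, hWdef, hevW]
  have hsW : s * ev W = (ev W)⁻¹ * s := by
    have h := hs _ hWF
    rw [← h]
    group
  have huL : u ∈ S.L := (hUL k).1
  have hv1 : ev (fInv S W) * s = ev u := by
    rw [ev_fInv, hevu, hsW]
  have hv2 : ev (fInv S W) * s⁻¹ = ev (fInv S u) := by
    rw [ev_fInv, ev_fInv, hevu]
    group
  have hulen : u.length ≤ W.length + C := by
    have h := hC (fInv S W) (fInv_mem S hWL) u huL hv1 (by
      intro u' hu' hev
      exact hUmin k u' ⟨hu', by rw [hev, hevu, hWdef, hevW]⟩)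
    rwa [length_fInv] at h
  have hWlen : W.length = p.length + ((List.replicate k l).flatten).length + q.length := by
    simp [hWdef, add_assoc]
  have hwlen : w.length = p.length + l.length + q.length := by
    rw [hwpq]
    simp [add_assoc]
  set τ := q.length with hτ
  have hCq : p.length + C ≤ τ := by omega
  -- (i)
  have e1 : ev ((fInv S u).take τ) = (ev u)⁻¹ * ev (u.take (u.length - τ)) :=
    ev_take_fInv S u τ
  have e2 : (ev ((fInv S W).take (u.length - τ)))⁻¹ * ev (u.take (u.length - τ)) ∈ B :=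
    hft _ (fInv_mem S hWL) _ huL hv1 _
  have e3 : ev ((fInv S W).take (u.length - τ)) =
      (ev W)⁻¹ * ev (W.take (W.length - (u.length - τ))) :=
    ev_take_fInv S W _
  have e4 : ev ((fInv S W).take τ) = (ev q)⁻¹ := by
    rw [ev_take_fInv S W τ]
    have h1 : W.take (W.length - τ) = p ++ (List.replicate k l).flatten := by
      have hlen1 : W.length - τ = (p ++ (List.replicate k l).flatten).length := by
        rw [List.length_append]
        omega
      rw [hlen1, hWdef, List.take_left]
    have h2 : ev W = ev (p ++ (List.replicate k l).flatten) * ev q := by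
      rw [hWdef, ev_append]
    rw [h1, h2]
    group
  have e5 : (ev ((fInv S W).take τ))⁻¹ * ev ((fInv S u).take τ) ∈ B' :=
    hft' _ (fInv_mem S hWL) _ (fInv_mem S huL) hv2 _
  set b := (ev ((fInv S W).take (u.length - τ)))⁻¹ * ev (u.take (u.length - τ)) with hb
  set b' := (ev ((fInv S W).take τ))⁻¹ * ev ((fInv S u).take τ) with hb'
  -- prefix of `W`
  have hj1 : p.length ≤ W.length - (u.length - τ) := by omega
  have hj2 : W.length - (u.length - τ) ≤ p.length + ((List.replicate k l).flatten).length := by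
    omega
  obtain ⟨i, r, hr, hir⟩ := take_power l k (W.length - (u.length - τ) - p.length)
  have e6 : ev (W.take (W.length - (u.length - τ))) = ev p * (ev l ^ i * ev r) := by
    have h1 : W.take (W.length - (u.length - τ)) =
        p ++ ((List.replicate k l).flatten).take (W.length - (u.length - τ) - p.length) := by
      exact take_mid p _ q _ hj1 hj2
    rw [h1, ev_append, hir]
  -- conclusion
  have e7 : (ev q)⁻¹ * b' = (ev u)⁻¹ * ((ev W)⁻¹ * (ev p * (ev l ^ i * ev r)) * b) := by
    calc (ev q)⁻¹ * b' = ev ((fInv S u).take τ) := by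
          rw [hb', e4]
          group
      _ = (ev u)⁻¹ * ev (u.take (u.length - τ)) := e1
      _ = (ev u)⁻¹ * (ev ((fInv S W).take (u.length - τ)) * b) := by
          rw [hb]
          group
      _ = _ := by rw [e3, e6]
  have e8 : ev q = b' * b⁻¹ * (ev r)⁻¹ * (ev l ^ i)⁻¹ * (ev p)⁻¹ * s := by
    have h1 : ev q = b' * ((ev q)⁻¹ * b')⁻¹ := by group
    rw [h1, e7, hevu]
    have h2 : (ev W) * (s * ev W) = s := by
      rw [hsW]
      group
    calc b' * ((s * ev W)⁻¹ * ((ev W)⁻¹ * (ev p * (ev l ^ i * ev r)) * b))⁻¹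
        = b' * b⁻¹ * (ev r)⁻¹ * (ev l ^ i)⁻¹ * (ev p)⁻¹ * (ev W * (s * ev W)) := by group
      _ = _ := by rw [h2]
  refine ⟨_, Or.inr ⟨((p, l, r), (b, b')), ⟨⟨?_, ?_, ?_⟩, e2, e5⟩, rfl⟩, -(i : ℤ), ?_⟩
  · show p.length ≤ N
    omega
  · show l.length ≤ N
    omega
  · show r.length ≤ N
    omega
  · show f = ev p * ev l * b' * b⁻¹ * (ev r)⁻¹ * (ev l) ^ (-(i : ℤ)) * ((ev p)⁻¹ * s)
    rw [hfPQ, e8, zpow_neg, zpow_natCast]
    group

/-- A free abelian group of rank two is not a finite union of sets `u ⟨z⟩ u'`. -/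
theorem not_covered (ψ : Multiplicative (ℤ × ℤ) →* G) (hψ : Function.Injective ψ)
    (T : Set (G × G × G)) (hT : T.Finite)
    (hcov : ∀ v, ∃ p ∈ T, ∃ n : ℤ, ψ v = p.1 * p.2.1 ^ n * p.2.2) : False := by
  classical
  have hfin : Finite ↥T := hT
  choose g hgT n hn using fun x : ℕ =>
    hcov (Multiplicative.ofAdd ((x : ℤ), (x : ℤ) ^ 2))
  obtain ⟨y, hy⟩ := Finite.exists_infinite_fiber (fun x : ℕ => (⟨g x, hgT x⟩ : ↥T))
  rw [Set.infinite_coe_iff] at hy
  obtain ⟨t, hts, ht3⟩ := hy.exists_subset_card_eq 3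
  obtain ⟨x1, x2, x3, h12, h13, h23, rfl⟩ := Finset.card_eq_three.1 ht3
  have hg : ∀ x ∈ ({x1, x2, x3} : Finset ℕ), g x = y := by
    intro x hx
    have h := hts hx
    simp only [Set.mem_preimage, Set.mem_singleton_iff] at h
    rw [← h]
  have g1 := hg x1 (by simp)
  have g2 := hg x2 (by simp)
  have g3 := hg x3 (by simp)
  have e1 := hn x1
  have e2 := hn x2
  have e3 := hn x3
  rw [g1] at e1
  rw [g2] at e2
  rw [g3] at e3
  obtain ⟨⟨u, z, u'⟩, hyT⟩ := y
  simp only at e1 e2 e3
  set a := n x2 - n x1 with ha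
  set b := n x3 - n x1 with hb
  have hd : ∀ (x : ℕ) (k : ℤ), ψ (Multiplicative.ofAdd ((x : ℤ), (x : ℤ) ^ 2)) = u * z ^ k * u' →
      ψ (Multiplicative.ofAdd ((x : ℤ) - x1, (x : ℤ) ^ 2 - (x1 : ℤ) ^ 2)) =
        u * z ^ (k - n x1) * u⁻¹ := by
    intro x k hk
    have h1 : (Multiplicative.ofAdd ((x : ℤ) - x1, (x : ℤ) ^ 2 - (x1 : ℤ) ^ 2)) =
        Multiplicative.ofAdd ((x : ℤ), (x : ℤ) ^ 2) *
          (Multiplicative.ofAdd ((x1 : ℤ), (x1 : ℤ) ^ 2))⁻¹ := by
      rw [← ofAdd_neg, ← ofAdd_add]
      congr 1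
    rw [h1, map_mul, map_inv, hk, e1, zpow_sub]
    group
  have hpow : ∀ (x : ℕ) (k c : ℤ),
      ψ (Multiplicative.ofAdd ((x : ℤ), (x : ℤ) ^ 2)) = u * z ^ k * u' →
      ψ (Multiplicative.ofAdd (c * ((x : ℤ) - x1), c * ((x : ℤ) ^ 2 - (x1 : ℤ) ^ 2))) =
        u * z ^ ((k - n x1) * c) * u⁻¹ := by
    intro x k c hk
    have h1 : (Multiplicative.ofAdd (c * ((x : ℤ) - x1), c * ((x : ℤ) ^ 2 - (x1 : ℤ) ^ 2))) =
        (Multiplicative.ofAdd ((x : ℤ) - x1, (x : ℤ) ^ 2 - (x1 : ℤ) ^ 2)) ^ c := by
      rw [← ofAdd_zsmul]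
      congr 1
    rw [h1, map_zpow, hd x k hk, conj_zpow, zpow_mul]
  have h2 := hpow x2 _ b e2
  have h3 := hpow x3 _ a e3
  have h4 : ψ (Multiplicative.ofAdd (b * ((x2 : ℤ) - x1), b * ((x2 : ℤ) ^ 2 - (x1 : ℤ) ^ 2))) =
      ψ (Multiplicative.ofAdd (a * ((x3 : ℤ) - x1), a * ((x3 : ℤ) ^ 2 - (x1 : ℤ) ^ 2))) := by
    rw [h2, h3, ← ha, ← hb, mul_comm a b]
  have h5 := hψ h4
  have h6 : (b * ((x2 : ℤ) - x1), b * ((x2 : ℤ) ^ 2 - (x1 : ℤ) ^ 2)) =
      (a * ((x3 : ℤ) - x1), a * ((x3 : ℤ) ^ 2 - (x1 : ℤ) ^ 2)) := h5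
  rw [Prod.mk.injEq] at h6
  obtain ⟨h7, h8⟩ := h6
  have h12' : (x2 : ℤ) - x1 ≠ 0 := by
    intro h
    apply h12
    omega
  have h13' : (x3 : ℤ) - x1 ≠ 0 := by
    intro h
    apply h13
    omega
  have h23' : (x2 : ℤ) - x3 ≠ 0 := by
    intro h
    apply h23
    omega
  have h9 : a * (((x3 : ℤ) - x1) * ((x2 : ℤ) - x3)) = 0 := by
    have h10 : b * ((x2 : ℤ) ^ 2 - (x1 : ℤ) ^ 2) = b * ((x2 : ℤ) - x1) * (x2 + x1) := by ring
    rw [h10, h7] at h8
    linear_combination h8
  have ha0 : a = 0 := by
    rcases mul_eq_zero.1 h9 with h | h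
    · exact h
    · exact absurd h (mul_ne_zero h13' h23')
  have h11 := hd x2 _ e2
  rw [← ha, ha0] at h11
  have h12'' : ψ (Multiplicative.ofAdd ((x2 : ℤ) - x1, (x2 : ℤ) ^ 2 - (x1 : ℤ) ^ 2)) = ψ 1 := by
    rw [h11, map_one]
    simp
  have h13'' := hψ h12''
  have h14 : ((x2 : ℤ) - x1, (x2 : ℤ) ^ 2 - (x1 : ℤ) ^ 2) = (0 : ℤ × ℤ) := h13''
  have h15 := congrArg Prod.fst h14
  exact h12' h15

/-- No symmetric automatic structure makes an inverted free abelian subgroup of rank two
rational. -/
theorem no_rational_flat (S : SymmetricAutomaticStructure G)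
    (ψ : Multiplicative (ℤ × ℤ) →* G) (hψ : Function.Injective ψ) (s : G)
    (hs : ∀ v, s * ψ v * s⁻¹ = (ψ v)⁻¹) :
    ¬ Language.IsRegular ({w | w ∈ S.L ∧ ev w ∈ ψ.range} : Language ↥S.A) := by
  intro hreg
  obtain ⟨T, hT, hcov⟩ := rational_inverted S ψ.range (by
    rintro _ ⟨v, rfl⟩ hv n hn h1
    apply hv
    rw [← map_pow, ← map_one ψ] at h1
    have h2 := hψ h1
    have h3 : n • Multiplicative.toAdd v = 0 := h2
    have h4 : Multiplicative.toAdd v = 0 := by
      rcases smul_eq_zero.1 h3 with h | h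
      · exact absurd h hn
      · exact h
    have h5 : v = 1 := h4
    rw [h5, map_one]) s (by
    rintro _ ⟨v, rfl⟩
    exact hs v) hreg
  exact not_covered ψ hψ T hT fun v => hcov _ ⟨v, rfl⟩

end Core

end Pool.Agent.Lib.MP_c68597_al
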