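import Mathlib

/-!
# The mapping class group of the punctured sphere and two commuting inverted mapping classes

`ModSphere n` is the mapping class group of the sphere with `n + 1` punctures in its
Dehn-Nielsen-Baer form. For `n = m + 5` the classes `c1 m`, `c2 m` commute, generate a free abelian
group of rank two and are both inverted by `cs m`: with the Hurwitz moves `σ_0, σ_1, σ_3, σ_4` (half
twists) `c1 = σ_0 σ_1⁻¹`, `c2 = σ_3 σ_4⁻¹`, `cs = (σ_0 σ_1 σ_0) (σ_3 σ_4 σ_3)`.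
-/

namespace Pool.Agent.Lib.MP_c68597_al

/-- The relator of the fundamental group of the sphere with `n + 1` punctures: the product of
the generators `x_0, ..., x_n`. -/
def sphereRel (n : ℕ) : Set (FreeGroup (Fin (n + 1))) :=
  {(List.ofFn fun i : Fin (n + 1) => FreeGroup.of i).prod}

/-- The fundamental group `⟨x_0, ..., x_n | x_0 x_1 ⋯ x_n = 1⟩` of the sphere with `n + 1`
punctures; `x_i` is a loop around the `i`-th puncture. -/
abbrev Pi1 (n : ℕ) : Type := PresentedGroup (sphereRel n)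

/-- The loop around the `i`-th puncture. -/
def loop {n : ℕ} (i : Fin (n + 1)) : Pi1 n := PresentedGroup.of i

/-- The automorphism `ψ` permutes the conjugacy classes of the oriented puncture loops: for some
permutation `τ` of the punctures `ψ x_i` is conjugate to `x_{τ i}` for every `i`. -/
def IsPeripheral {n : ℕ} (ψ : MulAut (Pi1 n)) : Prop :=
  ∃ τ : Equiv.Perm (Fin (n + 1)), ∀ i, IsConj (loop (τ i)) (ψ (loop i))

lemma IsPeripheral.mul {n : ℕ} {ψ ψ' : MulAut (Pi1 n)} (h : IsPeripheral ψ)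
    (h' : IsPeripheral ψ') : IsPeripheral (ψ * ψ') := by
  obtain ⟨τ, hτ⟩ := h
  obtain ⟨τ', hτ'⟩ := h'
  refine ⟨τ * τ', fun i => ?_⟩
  have h1 := hτ (τ' i)
  have h2 : IsConj (ψ (loop (τ' i))) (ψ (ψ' (loop i))) := ψ.toMonoidHom.map_isConj (hτ' i)
  exact h1.trans h2

lemma isPeripheral_one {n : ℕ} : IsPeripheral (1 : MulAut (Pi1 n)) :=
  ⟨1, fun _ => IsConj.refl _⟩

lemma IsPeripheral.inv {n : ℕ} {ψ : MulAut (Pi1 n)} (h : IsPeripheral ψ) :
    IsPeripheral ψ⁻¹ := by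
  obtain ⟨τ, hτ⟩ := h
  refine ⟨τ⁻¹, fun i => ?_⟩
  have h1 := hτ (τ⁻¹ i)
  have h0 : τ (τ⁻¹ i) = i := τ.apply_symm_apply i
  rw [h0] at h1
  have h2 : IsConj (ψ⁻¹ (loop i)) (ψ⁻¹ (ψ (loop (τ⁻¹ i)))) := (ψ⁻¹).toMonoidHom.map_isConj h1
  rw [MulAut.inv_apply_self] at h2
  exact h2.symm

/-- The automorphisms of the fundamental group which permute the conjugacy classes of the
oriented puncture loops. -/
def perAut (n : ℕ) : Subgroup (MulAut (Pi1 n)) where
  carrier := {ψ | IsPeripheral ψ}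
  mul_mem' := IsPeripheral.mul
  one_mem' := isPeripheral_one
  inv_mem' := IsPeripheral.inv

/-- The inner automorphisms. -/
def innAut (n : ℕ) : Subgroup (perAut n) :=
  (MulAut.conj (G := Pi1 n)).range.subgroupOf (perAut n)

instance innAut_normal (n : ℕ) : (innAut n).Normal := by
  refine ⟨?_⟩
  rintro ⟨ψ, hψ⟩ h ⟨χ, hχ⟩
  rw [innAut, Subgroup.mem_subgroupOf] at h ⊢
  obtain ⟨g, hg⟩ := h
  refine ⟨χ g, ?_⟩
  simp only at hg
  ext y
  simp only [MulAut.conj_apply, Subgroup.coe_mul, InvMemClass.coe_inv, ← hg, MulAut.mul_apply,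
    map_mul, map_inv, MulAut.apply_inv_self]

/-- The mapping class group of the sphere with `n + 1` punctures (in its
Dehn-Nielsen-Baer form). -/
def ModSphere (n : ℕ) : Type := ↥(perAut n) ⧸ innAut n

instance instGroupModSphere (n : ℕ) : Group (ModSphere n) :=
  QuotientGroup.Quotient.group (innAut n)

/-- The mapping class of an automorphism. -/
def mcls {n : ℕ} : ↥(perAut n) →* ModSphere n := QuotientGroup.mk' (innAut n)

section Moves

variable {m : ℕ}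

/-- The `k`-th generator, `k < 6`. -/
abbrev xx (m : ℕ) (k : Fin 6) : Pi1 (m + 5) := loop (n := m + 5) ⟨(k : ℕ), by omega⟩

/-- The `(k + 6)`-th generator. -/
abbrev xr (m k : ℕ) (h : k + 6 < m + 6) : Pi1 (m + 5) := loop (n := m + 5) ⟨k + 6, h⟩

/-- Tuple with prescribed first six entries. -/
def tup {H : Type*} (g0 g1 g2 g3 g4 g5 : H) (r : Fin (m + 6) → H) : Fin (m + 6) → H
  | ⟨0, _⟩ => g0
  | ⟨1, _⟩ => g1
  | ⟨2, _⟩ => g2
  | ⟨3, _⟩ => g3
  | ⟨4, _⟩ => g4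
  | ⟨5, _⟩ => g5
  | ⟨k + 6, h⟩ => r ⟨k + 6, h⟩

lemma prod_ofFn_six {H : Type*} [Group H] (f : Fin (m + 6) → H) :
    (List.ofFn f).prod = f ⟨0, by omega⟩ * f ⟨1, by omega⟩ * f ⟨2, by omega⟩ *
      f ⟨3, by omega⟩ * f ⟨4, by omega⟩ * f ⟨5, by omega⟩ *
      (List.ofFn fun i : Fin m => f ⟨i + 6, by omega⟩).prod := by
  simp only [List.ofFn_succ, List.prod_cons, mul_assoc]
  rfl

lemma lift_rel {H : Type*} [Group H] (f : Fin (m + 6) → H) (hf : (List.ofFn f).prod = 1) :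
    ∀ r ∈ sphereRel (m + 5), FreeGroup.lift f r = 1 := by
  intro r hr
  rw [sphereRel, Set.mem_singleton_iff] at hr
  rw [hr, map_list_prod, List.map_ofFn]
  have h1 : (⇑(FreeGroup.lift f) ∘ fun i : Fin (m + 5 + 1) => FreeGroup.of i) = f := by
    funext i
    simp
  rw [h1]
  exact hf

lemma loop_rel : (List.ofFn fun i : Fin (m + 6) => loop (n := m + 5) i).prod = 1 := by
  have h := PresentedGroup.one_of_mem (rels := sphereRel (m + 5)) (x :=
    (List.ofFn fun i : Fin (m + 5 + 1) => FreeGroup.of i).prod) (by simp [sphereRel])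
  rw [map_list_prod, List.map_ofFn] at h
  exact h

lemma six_rel : xx m 0 * xx m 1 * xx m 2 * xx m 3 * xx m 4 * xx m 5 *
    (List.ofFn fun i : Fin m => xr m (i : ℕ) (by omega)).prod = 1 := by
  have h := loop_rel (m := m)
  rw [prod_ofFn_six] at h
  exact h

/-- The endomorphism with prescribed values on the first six generators, fixing the others. -/
def endo (g0 g1 g2 g3 g4 g5 : Pi1 (m + 5))
    (h : g0 * g1 * g2 * g3 * g4 * g5 = xx m 0 * xx m 1 * xx m 2 * xx m 3 * xx m 4 * xx m 5) :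
    Pi1 (m + 5) →* Pi1 (m + 5) :=
  PresentedGroup.toGroup (f := tup g0 g1 g2 g3 g4 g5 fun i => loop (n := m + 5) i)
    (lift_rel _ (by
      rw [prod_ofFn_six]
      show g0 * g1 * g2 * g3 * g4 * g5 * (List.ofFn fun i : Fin m => xr m (i : ℕ) (by omega)).prod = 1
      rw [h]
      exact six_rel))

lemma endo_loop (g0 g1 g2 g3 g4 g5 : Pi1 (m + 5)) (h) (i : Fin (m + 6)) :
    endo g0 g1 g2 g3 g4 g5 h (loop (n := m + 5) i) =
      tup g0 g1 g2 g3 g4 g5 (fun i => loop (n := m + 5) i) i :=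
  PresentedGroup.toGroup.of _

/-- Two homomorphisms agreeing on the first six generators and on the others. -/
lemma hom_ext_six {H : Type*} [Group H] {φ ψ : Pi1 (m + 5) →* H}
    (h0 : φ (xx m 0) = ψ (xx m 0)) (h1 : φ (xx m 1) = ψ (xx m 1))
    (h2 : φ (xx m 2) = ψ (xx m 2)) (h3 : φ (xx m 3) = ψ (xx m 3))
    (h4 : φ (xx m 4) = ψ (xx m 4)) (h5 : φ (xx m 5) = ψ (xx m 5))
    (h6 : ∀ (k : ℕ) (hk : k + 6 < m + 6), φ (xr m k hk) = ψ (xr m k hk)) : φ = ψ := by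
  apply PresentedGroup.ext
  rintro ⟨k, hk⟩
  rcases k with _ | _ | _ | _ | _ | _ | k
  · exact h0
  · exact h1
  · exact h2
  · exact h3
  · exact h4
  · exact h5
  · exact h6 k hk


/-- the automorphism `x_0 ↦ x_0 x_1 x_0⁻¹, x_1 ↦ x_2, x_2 ↦ x_2⁻¹ x_0 x_2` -/
def e1 (m : ℕ) : Pi1 (m + 5) →* Pi1 (m + 5) :=
  endo (xx m 0 * xx m 1 * (xx m 0)⁻¹) (xx m 2) ((xx m 2)⁻¹ * xx m 0 * xx m 2)
    (xx m 3) (xx m 4) (xx m 5) (by group)

/-- its inverse -/
def e1' (m : ℕ) : Pi1 (m + 5) →* Pi1 (m + 5) :=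
  endo (xx m 1 * xx m 2 * (xx m 1)⁻¹) (xx m 1 * (xx m 2)⁻¹ * (xx m 1)⁻¹ * xx m 0 * xx m 1 *
    xx m 2 * (xx m 1)⁻¹) (xx m 1) (xx m 3) (xx m 4) (xx m 5) (by group)

/-- the same on the second block -/
def e2 (m : ℕ) : Pi1 (m + 5) →* Pi1 (m + 5) :=
  endo (xx m 0) (xx m 1) (xx m 2)
    (xx m 3 * xx m 4 * (xx m 3)⁻¹) (xx m 5) ((xx m 5)⁻¹ * xx m 3 * xx m 5) (by group)

/-- its inverse -/
def e2' (m : ℕ) : Pi1 (m + 5) →* Pi1 (m + 5) :=
  endo (xx m 0) (xx m 1) (xx m 2)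
    (xx m 4 * xx m 5 * (xx m 4)⁻¹) (xx m 4 * (xx m 5)⁻¹ * (xx m 4)⁻¹ * xx m 3 * xx m 4 *
    xx m 5 * (xx m 4)⁻¹) (xx m 4) (by group)

/-- the product of the two half twists -/
def es (m : ℕ) : Pi1 (m + 5) →* Pi1 (m + 5) :=
  endo (xx m 0 * xx m 1 * xx m 2 * (xx m 1)⁻¹ * (xx m 0)⁻¹) (xx m 0 * xx m 1 * (xx m 0)⁻¹) (xx m 0)
    (xx m 3 * xx m 4 * xx m 5 * (xx m 4)⁻¹ * (xx m 3)⁻¹) (xx m 3 * xx m 4 * (xx m 3)⁻¹) (xx m 3)
    (by group)

/-- its inverse -/
def es' (m : ℕ) : Pi1 (m + 5) →* Pi1 (m + 5) :=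
  endo (xx m 2) ((xx m 2)⁻¹ * xx m 1 * xx m 2)
    ((xx m 2)⁻¹ * (xx m 1)⁻¹ * xx m 0 * xx m 1 * xx m 2)
    (xx m 5) ((xx m 5)⁻¹ * xx m 4 * xx m 5)
    ((xx m 5)⁻¹ * (xx m 4)⁻¹ * xx m 3 * xx m 4 * xx m 5)
    (by group)


lemma endo_x0 (g0 g1 g2 g3 g4 g5 : Pi1 (m + 5)) (h) :
    endo g0 g1 g2 g3 g4 g5 h (xx m 0) = g0 := endo_loop g0 g1 g2 g3 g4 g5 h _

lemma endo_x1 (g0 g1 g2 g3 g4 g5 : Pi1 (m + 5)) (h) :
    endo g0 g1 g2 g3 g4 g5 h (xx m 1) = g1 := endo_loop g0 g1 g2 g3 g4 g5 h _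

lemma endo_x2 (g0 g1 g2 g3 g4 g5 : Pi1 (m + 5)) (h) :
    endo g0 g1 g2 g3 g4 g5 h (xx m 2) = g2 := endo_loop g0 g1 g2 g3 g4 g5 h _

lemma endo_x3 (g0 g1 g2 g3 g4 g5 : Pi1 (m + 5)) (h) :
    endo g0 g1 g2 g3 g4 g5 h (xx m 3) = g3 := endo_loop g0 g1 g2 g3 g4 g5 h _

lemma endo_x4 (g0 g1 g2 g3 g4 g5 : Pi1 (m + 5)) (h) :
    endo g0 g1 g2 g3 g4 g5 h (xx m 4) = g4 := endo_loop g0 g1 g2 g3 g4 g5 h _

lemma endo_x5 (g0 g1 g2 g3 g4 g5 : Pi1 (m + 5)) (h) :
    endo g0 g1 g2 g3 g4 g5 h (xx m 5) = g5 := endo_loop g0 g1 g2 g3 g4 g5 h _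

lemma endo_xk (g0 g1 g2 g3 g4 g5 : Pi1 (m + 5)) (h) (k : ℕ) (hk : k + 6 < m + 6) :
    endo g0 g1 g2 g3 g4 g5 h (xr m k hk) = xr m k hk :=
  endo_loop g0 g1 g2 g3 g4 g5 h _

/-- The mapping class `φ₁`. -/
def f1 (m : ℕ) : MulAut (Pi1 (m + 5)) :=
  MonoidHom.toMulEquiv (e1 m) (e1' m)
    (by
      apply hom_ext_six <;> intros <;>
        simp only [MonoidHom.comp_apply, MonoidHom.id_apply, e1, e1', endo_x0, endo_x1, endo_x2,
          endo_x3, endo_x4, endo_x5, endo_xk, map_mul, map_inv] <;> group)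
    (by
      apply hom_ext_six <;> intros <;>
        simp only [MonoidHom.comp_apply, MonoidHom.id_apply, e1, e1', endo_x0, endo_x1, endo_x2,
          endo_x3, endo_x4, endo_x5, endo_xk, map_mul, map_inv] <;> group)

/-- The mapping class `φ₂`. -/
def f2 (m : ℕ) : MulAut (Pi1 (m + 5)) :=
  MonoidHom.toMulEquiv (e2 m) (e2' m)
    (by
      apply hom_ext_six <;> intros <;>
        simp only [MonoidHom.comp_apply, MonoidHom.id_apply, e2, e2', endo_x0, endo_x1, endo_x2,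
          endo_x3, endo_x4, endo_x5, endo_xk, map_mul, map_inv] <;> group)
    (by
      apply hom_ext_six <;> intros <;>
        simp only [MonoidHom.comp_apply, MonoidHom.id_apply, e2, e2', endo_x0, endo_x1, endo_x2,
          endo_x3, endo_x4, endo_x5, endo_xk, map_mul, map_inv] <;> group)

/-- The mapping class `s` inverting both. -/
def fs (m : ℕ) : MulAut (Pi1 (m + 5)) :=
  MonoidHom.toMulEquiv (es m) (es' m)
    (by
      apply hom_ext_six <;> intros <;>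
        simp only [MonoidHom.comp_apply, MonoidHom.id_apply, es, es', endo_x0, endo_x1, endo_x2,
          endo_x3, endo_x4, endo_x5, endo_xk, map_mul, map_inv] <;> group)
    (by
      apply hom_ext_six <;> intros <;>
        simp only [MonoidHom.comp_apply, MonoidHom.id_apply, es, es', endo_x0, endo_x1, endo_x2,
          endo_x3, endo_x4, endo_x5, endo_xk, map_mul, map_inv] <;> group)

lemma aut_ext {ψ χ : MulAut (Pi1 (m + 5))} (h : ψ.toMonoidHom = χ.toMonoidHom) : ψ = χ := by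
  ext y
  exact DFunLike.congr_fun h y

lemma f1_apply (y : Pi1 (m + 5)) : f1 m y = e1 m y := rfl

lemma f2_apply (y : Pi1 (m + 5)) : f2 m y = e2 m y := rfl

lemma fs_apply (y : Pi1 (m + 5)) : fs m y = es m y := rfl

lemma f1_mul_f2 : f1 m * f2 m = f2 m * f1 m := by
  apply aut_ext
  apply hom_ext_six <;> intros <;>
    simp only [MulEquiv.toMonoidHom_eq_coe, MonoidHom.coe_coe, MulAut.mul_apply, f1_apply,
      f2_apply, e1, e2, endo_x0, endo_x1, endo_x2,
      endo_x3, endo_x4, endo_x5, endo_xk, map_mul, map_inv]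

lemma f1_fs_f1 : f1 m * fs m * f1 m = fs m := by
  apply aut_ext
  apply hom_ext_six <;> intros <;>
    simp only [MulEquiv.toMonoidHom_eq_coe, MonoidHom.coe_coe, MulAut.mul_apply, f1_apply,
      fs_apply, e1, es, endo_x0, endo_x1, endo_x2,
      endo_x3, endo_x4, endo_x5, endo_xk, map_mul, map_inv] <;> group

lemma f2_fs_f2 : f2 m * fs m * f2 m = fs m := by
  apply aut_ext
  apply hom_ext_six <;> intros <;>
    simp only [MulEquiv.toMonoidHom_eq_coe, MonoidHom.coe_coe, MulAut.mul_apply, f2_apply,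
      fs_apply, e2, es, endo_x0, endo_x1, endo_x2,
      endo_x3, endo_x4, endo_x5, endo_xk, map_mul, map_inv] <;> group


lemma conj_of_eq {a b c : Pi1 (m + 5)} (h : b = c * a * c⁻¹) : IsConj a b :=
  isConj_iff.2 ⟨c, h.symm⟩

/-- permutation of the punctures -/
def t1 (m : ℕ) : Equiv.Perm (Fin (m + 5 + 1)) :=
  Equiv.swap ⟨0, by omega⟩ ⟨1, by omega⟩ * Equiv.swap ⟨1, by omega⟩ ⟨2, by omega⟩

lemma f1_mem : f1 m ∈ perAut (m + 5) := by
  refine ⟨t1 m, ?_⟩
  rintro ⟨k, hk⟩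
  rcases k with _ | _ | _ | _ | _ | _ | k
  · have h : t1 m ⟨0, hk⟩ = ⟨1, by omega⟩ := by
      simp [t1, Equiv.swap_apply_def]
    rw [h]
    refine conj_of_eq (c := xx m 0) ?_
    change e1 m (xx m 0) = xx m 0 * xx m 1 * (xx m 0)⁻¹
    rw [e1, endo_x0]
    try group
  · have h : t1 m ⟨0 + 1, hk⟩ = ⟨2, by omega⟩ := by
      simp [t1, Equiv.swap_apply_def]
    rw [h]
    refine conj_of_eq (c := 1) ?_
    change e1 m (xx m 1) = 1 * xx m 2 * (1)⁻¹
    rw [e1, endo_x1]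
    try group
  · have h : t1 m ⟨0 + 1 + 1, hk⟩ = ⟨0, by omega⟩ := by
      simp [t1, Equiv.swap_apply_def]
    rw [h]
    refine conj_of_eq (c := (xx m 2)⁻¹) ?_
    change e1 m (xx m 2) = (xx m 2)⁻¹ * xx m 0 * ((xx m 2)⁻¹)⁻¹
    rw [e1, endo_x2]
    try group
  · have h : t1 m ⟨0 + 1 + 1 + 1, hk⟩ = ⟨3, by omega⟩ := by
      simp [t1, Equiv.swap_apply_def]
    rw [h]
    refine conj_of_eq (c := 1) ?_
    change e1 m (xx m 3) = 1 * xx m 3 * (1)⁻¹
    rw [e1, endo_x3]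
    try group
  · have h : t1 m ⟨0 + 1 + 1 + 1 + 1, hk⟩ = ⟨4, by omega⟩ := by
      simp [t1, Equiv.swap_apply_def]
    rw [h]
    refine conj_of_eq (c := 1) ?_
    change e1 m (xx m 4) = 1 * xx m 4 * (1)⁻¹
    rw [e1, endo_x4]
    try group
  · have h : t1 m ⟨0 + 1 + 1 + 1 + 1 + 1, hk⟩ = ⟨5, by omega⟩ := by
      simp [t1, Equiv.swap_apply_def]
    rw [h]
    refine conj_of_eq (c := 1) ?_
    change e1 m (xx m 5) = 1 * xx m 5 * (1)⁻¹
    rw [e1, endo_x5]
    try group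
  · have h : t1 m ⟨k + 6, hk⟩ = ⟨k + 6, hk⟩ := by
      simp [t1, Equiv.swap_apply_def]
    change IsConj (loop (t1 m ⟨k + 6, hk⟩)) _
    rw [h]
    refine conj_of_eq (c := 1) ?_
    change e1 m (xr m k hk) = 1 * xr m k hk * 1⁻¹
    rw [e1, endo_xk]
    group

/-- permutation of the punctures -/
def t2 (m : ℕ) : Equiv.Perm (Fin (m + 5 + 1)) :=
  Equiv.swap ⟨3, by omega⟩ ⟨4, by omega⟩ * Equiv.swap ⟨4, by omega⟩ ⟨5, by omega⟩

lemma f2_mem : f2 m ∈ perAut (m + 5) := by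
  refine ⟨t2 m, ?_⟩
  rintro ⟨k, hk⟩
  rcases k with _ | _ | _ | _ | _ | _ | k
  · have h : t2 m ⟨0, hk⟩ = ⟨0, by omega⟩ := by
      simp [t2, Equiv.swap_apply_def]
    rw [h]
    refine conj_of_eq (c := 1) ?_
    change e2 m (xx m 0) = 1 * xx m 0 * (1)⁻¹
    rw [e2, endo_x0]
    try group
  · have h : t2 m ⟨0 + 1, hk⟩ = ⟨1, by omega⟩ := by
      simp [t2, Equiv.swap_apply_def]
    rw [h]
    refine conj_of_eq (c := 1) ?_
    change e2 m (xx m 1) = 1 * xx m 1 * (1)⁻¹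
    rw [e2, endo_x1]
    try group
  · have h : t2 m ⟨0 + 1 + 1, hk⟩ = ⟨2, by omega⟩ := by
      simp [t2, Equiv.swap_apply_def]
    rw [h]
    refine conj_of_eq (c := 1) ?_
    change e2 m (xx m 2) = 1 * xx m 2 * (1)⁻¹
    rw [e2, endo_x2]
    try group
  · have h : t2 m ⟨0 + 1 + 1 + 1, hk⟩ = ⟨4, by omega⟩ := by
      simp [t2, Equiv.swap_apply_def]
    rw [h]
    refine conj_of_eq (c := xx m 3) ?_
    change e2 m (xx m 3) = xx m 3 * xx m 4 * (xx m 3)⁻¹
    rw [e2, endo_x3]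
    try group
  · have h : t2 m ⟨0 + 1 + 1 + 1 + 1, hk⟩ = ⟨5, by omega⟩ := by
      simp [t2, Equiv.swap_apply_def]
    rw [h]
    refine conj_of_eq (c := 1) ?_
    change e2 m (xx m 4) = 1 * xx m 5 * (1)⁻¹
    rw [e2, endo_x4]
    try group
  · have h : t2 m ⟨0 + 1 + 1 + 1 + 1 + 1, hk⟩ = ⟨3, by omega⟩ := by
      simp [t2, Equiv.swap_apply_def]
    rw [h]
    refine conj_of_eq (c := (xx m 5)⁻¹) ?_
    change e2 m (xx m 5) = (xx m 5)⁻¹ * xx m 3 * ((xx m 5)⁻¹)⁻¹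
    rw [e2, endo_x5]
    try group
  · have h : t2 m ⟨k + 6, hk⟩ = ⟨k + 6, hk⟩ := by
      simp [t2, Equiv.swap_apply_def]
    change IsConj (loop (t2 m ⟨k + 6, hk⟩)) _
    rw [h]
    refine conj_of_eq (c := 1) ?_
    change e2 m (xr m k hk) = 1 * xr m k hk * 1⁻¹
    rw [e2, endo_xk]
    group

/-- permutation of the punctures -/
def ts (m : ℕ) : Equiv.Perm (Fin (m + 5 + 1)) :=
  Equiv.swap ⟨0, by omega⟩ ⟨2, by omega⟩ * Equiv.swap ⟨3, by omega⟩ ⟨5, by omega⟩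

lemma fs_mem : fs m ∈ perAut (m + 5) := by
  refine ⟨ts m, ?_⟩
  rintro ⟨k, hk⟩
  rcases k with _ | _ | _ | _ | _ | _ | k
  · have h : ts m ⟨0, hk⟩ = ⟨2, by omega⟩ := by
      simp [ts, Equiv.swap_apply_def]
    rw [h]
    refine conj_of_eq (c := (xx m 0 * xx m 1)) ?_
    change es m (xx m 0) = (xx m 0 * xx m 1) * xx m 2 * ((xx m 0 * xx m 1))⁻¹
    rw [es, endo_x0]
    try group
  · have h : ts m ⟨0 + 1, hk⟩ = ⟨1, by omega⟩ := by
      simp [ts, Equiv.swap_apply_def]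
    rw [h]
    refine conj_of_eq (c := xx m 0) ?_
    change es m (xx m 1) = xx m 0 * xx m 1 * (xx m 0)⁻¹
    rw [es, endo_x1]
    try group
  · have h : ts m ⟨0 + 1 + 1, hk⟩ = ⟨0, by omega⟩ := by
      simp [ts, Equiv.swap_apply_def]
    rw [h]
    refine conj_of_eq (c := 1) ?_
    change es m (xx m 2) = 1 * xx m 0 * (1)⁻¹
    rw [es, endo_x2]
    try group
  · have h : ts m ⟨0 + 1 + 1 + 1, hk⟩ = ⟨5, by omega⟩ := by
      simp [ts, Equiv.swap_apply_def]
    rw [h]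
    refine conj_of_eq (c := (xx m 3 * xx m 4)) ?_
    change es m (xx m 3) = (xx m 3 * xx m 4) * xx m 5 * ((xx m 3 * xx m 4))⁻¹
    rw [es, endo_x3]
    try group
  · have h : ts m ⟨0 + 1 + 1 + 1 + 1, hk⟩ = ⟨4, by omega⟩ := by
      simp [ts, Equiv.swap_apply_def]
    rw [h]
    refine conj_of_eq (c := xx m 3) ?_
    change es m (xx m 4) = xx m 3 * xx m 4 * (xx m 3)⁻¹
    rw [es, endo_x4]
    try group
  · have h : ts m ⟨0 + 1 + 1 + 1 + 1 + 1, hk⟩ = ⟨3, by omega⟩ := by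
      simp [ts, Equiv.swap_apply_def]
    rw [h]
    refine conj_of_eq (c := 1) ?_
    change es m (xx m 5) = 1 * xx m 3 * (1)⁻¹
    rw [es, endo_x5]
    try group
  · have h : ts m ⟨k + 6, hk⟩ = ⟨k + 6, hk⟩ := by
      simp [ts, Equiv.swap_apply_def]
    change IsConj (loop (ts m ⟨k + 6, hk⟩)) _
    rw [h]
    refine conj_of_eq (c := 1) ?_
    change es m (xr m k hk) = 1 * xr m k hk * 1⁻¹
    rw [es, endo_xk]
    group


/-- The reflection `z ↦ a - z` of the integers. -/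
def rf (a : ℤ) : Equiv.Perm ℤ where
  toFun z := a - z
  invFun z := a - z
  left_inv z := by ring
  right_inv z := by ring

lemma rf_apply (a z : ℤ) : rf a z = a - z := rfl

lemma rf_inv_apply (a z : ℤ) : (rf a)⁻¹ z = a - z := rfl

/-- Representation of the fundamental group by reflections. -/
def rho (m : ℕ) (a b c d e f : ℤ) (h : a - b + c - d + e - f = 0) :
    Pi1 (m + 5) →* Equiv.Perm ℤ :=
  PresentedGroup.toGroup (f := tup (rf a) (rf b) (rf c) (rf d) (rf e) (rf f) fun _ => 1)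
    (lift_rel _ (by
      rw [prod_ofFn_six]
      show rf a * rf b * rf c * rf d * rf e * rf f * (List.ofFn fun _ : Fin m => 1).prod = 1
      rw [List.prod_eq_one (by
        intro x hx
        rw [List.mem_ofFn] at hx
        obtain ⟨_, rfl⟩ := hx
        rfl), mul_one]
      ext z
      simp only [Equiv.Perm.mul_apply, rf_apply, Equiv.Perm.one_apply]
      omega))

lemma rho_loop (a b c d e f : ℤ) (h) (i : Fin (m + 6)) :
    rho m a b c d e f h (loop (n := m + 5) i) =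
      tup (rf a) (rf b) (rf c) (rf d) (rf e) (rf f) (fun _ => 1) i :=
  PresentedGroup.toGroup.of _

lemma rho_x0 (a b c d e f : ℤ) (h) : rho m a b c d e f h (xx m 0) = rf a :=
  rho_loop a b c d e f h _

lemma rho_x1 (a b c d e f : ℤ) (h) : rho m a b c d e f h (xx m 1) = rf b :=
  rho_loop a b c d e f h _

lemma rho_x2 (a b c d e f : ℤ) (h) : rho m a b c d e f h (xx m 2) = rf c :=
  rho_loop a b c d e f h _

lemma rho_x3 (a b c d e f : ℤ) (h) : rho m a b c d e f h (xx m 3) = rf d :=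
  rho_loop a b c d e f h _

lemma rho_x4 (a b c d e f : ℤ) (h) : rho m a b c d e f h (xx m 4) = rf e :=
  rho_loop a b c d e f h _

lemma rho_x5 (a b c d e f : ℤ) (h) : rho m a b c d e f h (xx m 5) = rf f :=
  rho_loop a b c d e f h _

lemma rho_xk (a b c d e f : ℤ) (h) (k : ℕ) (hk : k + 6 < m + 6) :
    rho m a b c d e f h (xr m k hk) = 1 :=
  rho_loop a b c d e f h _

lemma rho_f1 (a b c d e f : ℤ) (h : a - b + c - d + e - f = 0) (y : Pi1 (m + 5)) :
    rho m a b c d e f h (f1 m y) =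
      rho m (2 * a - b) c (2 * c - a) d e f (by omega) y := by
  have h1 : (rho m a b c d e f h).comp (e1 m) =
      rho m (2 * a - b) c (2 * c - a) d e f (by omega) := by
    apply hom_ext_six <;> intros <;>
      simp only [MonoidHom.comp_apply, e1, endo_x0, endo_x1, endo_x2, endo_x3, endo_x4, endo_x5,
        endo_xk, map_mul, map_inv, rho_x0, rho_x1, rho_x2, rho_x3, rho_x4, rho_x5, rho_xk] <;>
      (ext z; simp only [Equiv.Perm.mul_apply, rf_apply, rf_inv_apply]; ring)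
  exact DFunLike.congr_fun h1 y

lemma rho_f2 (a b c d e f : ℤ) (h : a - b + c - d + e - f = 0) (y : Pi1 (m + 5)) :
    rho m a b c d e f h (f2 m y) =
      rho m a b c (2 * d - e) f (2 * f - d) (by omega) y := by
  have h1 : (rho m a b c d e f h).comp (e2 m) =
      rho m a b c (2 * d - e) f (2 * f - d) (by omega) := by
    apply hom_ext_six <;> intros <;>
      simp only [MonoidHom.comp_apply, e2, endo_x0, endo_x1, endo_x2, endo_x3, endo_x4, endo_x5,
        endo_xk, map_mul, map_inv, rho_x0, rho_x1, rho_x2, rho_x3, rho_x4, rho_x5, rho_xk] <;>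
      (ext z; simp only [Equiv.Perm.mul_apply, rf_apply, rf_inv_apply]; ring)
  exact DFunLike.congr_fun h1 y


lemma f1_iter (a b c d e f : ℤ) (h : a - b + c - d + e - f = 0) (hab : 1 ≤ a - b)
    (hbc : 0 ≤ b - c) : ∀ k : ℕ, ∃ (A B C : ℤ) (H : A - B + C - d + e - f = 0),
      (∀ y : Pi1 (m + 5), rho m a b c d e f h ((f1 m ^ k) y) = rho m A B C d e f H y) ∧
        1 ≤ A - B ∧ 0 ≤ B - C ∧ (1 ≤ k → 1 ≤ B - C) := by
  intro k
  induction k with
  | zero => exact ⟨a, b, c, h, fun y => rfl, hab, hbc, fun h => absurd h (by omega)⟩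
  | succ k ih =>
    obtain ⟨A, B, C, H, hy, h1, h2, -⟩ := ih
    refine ⟨2 * A - B, C, 2 * C - A, by omega, fun y => ?_, by omega, by omega, fun _ => by omega⟩
    rw [pow_succ, MulAut.mul_apply, hy, rho_f1]

lemma f2_iter (a b c d e f : ℤ) (h : a - b + c - d + e - f = 0) (hab : 1 ≤ d - e)
    (hbc : 0 ≤ e - f) : ∀ k : ℕ, ∃ (D E F : ℤ) (H : a - b + c - D + E - F = 0),
      (∀ y : Pi1 (m + 5), rho m a b c d e f h ((f2 m ^ k) y) = rho m a b c D E F H y) ∧
        1 ≤ D - E ∧ 0 ≤ E - F ∧ (1 ≤ k → 1 ≤ E - F) := by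
  intro k
  induction k with
  | zero => exact ⟨d, e, f, h, fun y => rfl, hab, hbc, fun h => absurd h (by omega)⟩
  | succ k ih =>
    obtain ⟨D, E, F, H, hy, h1, h2, -⟩ := ih
    refine ⟨2 * D - E, F, 2 * F - D, by omega, fun y => ?_, by omega, by omega, fun _ => by omega⟩
    rw [pow_succ, MulAut.mul_apply, hy, rho_f2]

lemma zpow_fix {G : Type*} [Group G] (ψ : MulAut G) (y : G) (h : ψ y = y) (l : ℤ) :
    (ψ ^ l) y = y := by
  have h1 : ψ ∈ MulAction.stabilizer (MulAut G) y := h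
  exact Subgroup.zpow_mem _ h1 l

lemma f2_fix : f2 m (xx m 1 * xx m 2) = xx m 1 * xx m 2 := by
  rw [f2_apply, map_mul, e2, endo_x1, endo_x2]

lemma no_inner_one (k : ℕ) (hk : 1 ≤ k) (l : ℤ) (g : Pi1 (m + 5)) :
    f1 m ^ k * f2 m ^ l ≠ MulAut.conj g := by
  intro h
  have h1 := DFunLike.congr_fun h (xx m 1 * xx m 2)
  rw [MulAut.mul_apply, zpow_fix _ _ f2_fix, MulAut.conj_apply] at h1
  obtain ⟨A, B, C, H, hy, -, -, hBC⟩ := f1_iter (m := m) 1 0 0 1 1 1 (by norm_num) (by norm_num)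
    (by norm_num) k
  have h2 := hy (xx m 1 * xx m 2)
  have h3 : rho m 1 0 0 1 1 1 (by norm_num) (xx m 1 * xx m 2) = 1 := by
    rw [map_mul, rho_x1, rho_x2]
    ext z
    simp only [Equiv.Perm.mul_apply, rf_apply, Equiv.Perm.one_apply]
    ring
  rw [h1, map_mul, map_mul, map_inv, h3, mul_one, mul_inv_cancel, map_mul, rho_x1, rho_x2] at h2
  have h4 := DFunLike.congr_fun h2 (0 : ℤ)
  simp only [Equiv.Perm.mul_apply, rf_apply, Equiv.Perm.one_apply] at h4
  have h5 := hBC hk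
  omega

lemma no_inner_two (k : ℕ) (hk : 1 ≤ k) (g : Pi1 (m + 5)) :
    f2 m ^ k ≠ MulAut.conj g := by
  intro h
  have h1 := DFunLike.congr_fun h (xx m 4 * xx m 5)
  rw [MulAut.conj_apply] at h1
  obtain ⟨D, E, F, H, hy, -, -, hBC⟩ := f2_iter (m := m) 1 1 1 1 0 0 (by norm_num) (by norm_num)
    (by norm_num) k
  have h2 := hy (xx m 4 * xx m 5)
  have h3 : rho m 1 1 1 1 0 0 (by norm_num) (xx m 4 * xx m 5) = 1 := by
    rw [map_mul, rho_x4, rho_x5]
    ext z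
    simp only [Equiv.Perm.mul_apply, rf_apply, Equiv.Perm.one_apply]
    ring
  rw [h1, map_mul, map_mul, map_inv, h3, mul_one, mul_inv_cancel, map_mul, rho_x4, rho_x5] at h2
  have h4 := DFunLike.congr_fun h2 (0 : ℤ)
  simp only [Equiv.Perm.mul_apply, rf_apply, Equiv.Perm.one_apply] at h4
  have h5 := hBC hk
  omega

lemma inner_inv {k l : ℤ} {g : Pi1 (m + 5)} (h : f1 m ^ k * f2 m ^ l = MulAut.conj g) :
    f1 m ^ (-k) * f2 m ^ (-l) = MulAut.conj g⁻¹ := by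
  have hc : Commute (f1 m) (f2 m) := f1_mul_f2
  rw [map_inv, ← h, mul_inv_rev, zpow_neg, zpow_neg]
  exact ((hc.zpow_zpow k l).inv_inv).eq

lemma inner_zero {k l : ℤ} {g : Pi1 (m + 5)} (h : f1 m ^ k * f2 m ^ l = MulAut.conj g) :
    k = 0 ∧ l = 0 := by
  have hk : k = 0 := by
    rcases lt_trichotomy k 0 with hk | hk | hk
    · have h1 := inner_inv h
      obtain ⟨j, hj⟩ := Int.eq_ofNat_of_zero_le (show 0 ≤ -k by omega)
      rw [hj, zpow_natCast] at h1
      exact absurd h1 (no_inner_one j (by omega) _ _)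
    · exact hk
    · obtain ⟨j, hj⟩ := Int.eq_ofNat_of_zero_le (show 0 ≤ k by omega)
      rw [hj, zpow_natCast] at h
      exact absurd h (no_inner_one j (by omega) _ _)
  refine ⟨hk, ?_⟩
  subst hk
  rcases lt_trichotomy l 0 with hl | hl | hl
  · have h1 := inner_inv h
    obtain ⟨j, hj⟩ := Int.eq_ofNat_of_zero_le (show 0 ≤ -l by omega)
    rw [hj, zpow_natCast, neg_zero, zpow_zero, one_mul] at h1
    exact absurd h1 (no_inner_two j (by omega) _)
  · exact hl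
  · obtain ⟨j, hj⟩ := Int.eq_ofNat_of_zero_le (show 0 ≤ l by omega)
    rw [hj, zpow_natCast, zpow_zero, one_mul] at h
    exact absurd h (no_inner_two j (by omega) _)

/-- `φ₁` as a mapping class -/
def c1 (m : ℕ) : ModSphere (m + 5) := mcls (⟨f1 m, f1_mem⟩ : perAut (m + 5))

/-- `φ₂` as a mapping class -/
def c2 (m : ℕ) : ModSphere (m + 5) := mcls (⟨f2 m, f2_mem⟩ : perAut (m + 5))

/-- `s` as a mapping class -/
def cs (m : ℕ) : ModSphere (m + 5) := mcls (⟨fs m, fs_mem⟩ : perAut (m + 5))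

lemma c1_mul_c2 : c1 m * c2 m = c2 m * c1 m := by
  have h : (⟨f1 m, f1_mem⟩ : perAut (m + 5)) * ⟨f2 m, f2_mem⟩ = ⟨f2 m, f2_mem⟩ * ⟨f1 m, f1_mem⟩ :=
    Subtype.ext f1_mul_f2
  exact congrArg mcls h

lemma c1_cs_c1 : c1 m * cs m * c1 m = cs m := by
  have h : (⟨f1 m, f1_mem⟩ : perAut (m + 5)) * ⟨fs m, fs_mem⟩ * ⟨f1 m, f1_mem⟩ = ⟨fs m, fs_mem⟩ :=
    Subtype.ext f1_fs_f1
  exact congrArg mcls h

lemma c2_cs_c2 : c2 m * cs m * c2 m = cs m := by
  have h : (⟨f2 m, f2_mem⟩ : perAut (m + 5)) * ⟨fs m, fs_mem⟩ * ⟨f2 m, f2_mem⟩ = ⟨fs m, fs_mem⟩ :=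
    Subtype.ext f2_fs_f2
  exact congrArg mcls h

lemma c1_c2_zero {k l : ℤ} (h : c1 m ^ k * c2 m ^ l = 1) : k = 0 ∧ l = 0 := by
  have h1 : c1 m ^ k * c2 m ^ l = mcls
      ((⟨f1 m, f1_mem⟩ : perAut (m + 5)) ^ k * (⟨f2 m, f2_mem⟩ : perAut (m + 5)) ^ l) := by
    rw [map_mul, map_zpow, map_zpow]
    rfl
  rw [h1] at h
  have h3 := (QuotientGroup.eq_one_iff _).1 h
  rw [innAut, Subgroup.mem_subgroupOf] at h3
  obtain ⟨g, hg⟩ := h3
  have h2 : f1 m ^ k * f2 m ^ l = MulAut.conj g := by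
    rw [hg]
    simp
  exact inner_zero h2

end Moves

section Flat

variable {G : Type*} [Group G]

/-- The homomorphism `(k, l) ↦ a ^ k * b ^ l` for commuting `a, b`. -/
def flatHom (a b : G) (h : a * b = b * a) : Multiplicative (ℤ × ℤ) →* G where
  toFun v := a ^ (Multiplicative.toAdd v).1 * b ^ (Multiplicative.toAdd v).2
  map_one' := by simp
  map_mul' u v := by
    have hc : Commute a b := h
    rw [toAdd_mul, Prod.fst_add, Prod.snd_add, zpow_add, zpow_add]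
    have h1 := (hc.zpow_zpow (Multiplicative.toAdd v).1 (Multiplicative.toAdd u).2).eq
    calc a ^ (Multiplicative.toAdd u).1 * a ^ (Multiplicative.toAdd v).1 *
        (b ^ (Multiplicative.toAdd u).2 * b ^ (Multiplicative.toAdd v).2)
        = a ^ (Multiplicative.toAdd u).1 * (a ^ (Multiplicative.toAdd v).1 *
          b ^ (Multiplicative.toAdd u).2) * b ^ (Multiplicative.toAdd v).2 := by
          simp only [mul_assoc]
      _ = _ := by
          rw [h1]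
          simp only [mul_assoc]

lemma flatHom_apply (a b : G) (h : a * b = b * a) (v : Multiplicative (ℤ × ℤ)) :
    flatHom a b h v = a ^ (Multiplicative.toAdd v).1 * b ^ (Multiplicative.toAdd v).2 := rfl

lemma flatHom_injective (a b : G) (h : a * b = b * a)
    (h0 : ∀ k l : ℤ, a ^ k * b ^ l = 1 → k = 0 ∧ l = 0) :
    Function.Injective (flatHom a b h) := by
  rw [injective_iff_map_eq_one]
  intro v hv
  obtain ⟨h1, h2⟩ := h0 _ _ hv
  have h3 : Multiplicative.toAdd v = 0 := Prod.ext h1 h2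
  exact h3

lemma flatHom_inverted (a b s : G) (h : a * b = b * a) (ha : a * s * a = s) (hb : b * s * b = s)
    (v : Multiplicative (ℤ × ℤ)) : s * flatHom a b h v * s⁻¹ = (flatHom a b h v)⁻¹ := by
  have hc : Commute a b := h
  have ha' : s * a * s⁻¹ = a⁻¹ := by
    have h1 : s * a = a⁻¹ * s := by
      rw [eq_inv_mul_iff_mul_eq, ← mul_assoc]
      exact ha
    rw [h1, mul_inv_cancel_right]
  have hb' : s * b * s⁻¹ = b⁻¹ := by
    have h1 : s * b = b⁻¹ * s := by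
      rw [eq_inv_mul_iff_mul_eq, ← mul_assoc]
      exact hb
    rw [h1, mul_inv_cancel_right]
  rw [flatHom_apply, mul_inv_rev]
  set k := (Multiplicative.toAdd v).1
  set l := (Multiplicative.toAdd v).2
  have h1 : s * (a ^ k * b ^ l) * s⁻¹ = (s * a ^ k * s⁻¹) * (s * b ^ l * s⁻¹) := by group
  rw [h1, ← conj_zpow, ← conj_zpow, ha', hb', inv_zpow, inv_zpow]
  exact ((hc.zpow_zpow k l).inv_inv).eq

end Flat

end Pool.Agent.Lib.MP_c68597_al
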